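import Pool.Agent.Helper54.SP.StmtsP

namespace Pool.Agent.Helper92.SPR

open Pool.Agent.Helper54.SP

theorem dt3_eq (X : ℕ → ℕ → ℝ) (p q r : ℕ) : dt 3 X [p, q, r] =
    X p 0 * X q 1 * X r 2 - X p 0 * X q 2 * X r 1 - X p 1 * X q 0 * X r 2 +
      X p 1 * X q 2 * X r 0 + X p 2 * X q 0 * X r 1 - X p 2 * X q 1 * X r 0 := by
  unfold dt
  rw [Matrix.det_fin_three]
  simp

theorem pl_big {x y : ℕ → ℝ} {p : ℕ} (hp : 2 ≤ p) :
    pl x y p 0 = x p ∧ pl x y p 1 = y p ∧ pl x y p 2 = 1 := by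
  have h0 : p ≠ 0 := by omega
  have h1 : p ≠ 1 := by omega
  unfold pl
  simp [h0, h1]

theorem pl_zero {x y : ℕ → ℝ} : pl x y 0 0 = 0 ∧ pl x y 0 1 = 1 ∧ pl x y 0 2 = 0 := by
  unfold pl
  simp

theorem pl_one {x y : ℕ → ℝ} : pl x y 1 0 = 1 ∧ pl x y 1 1 = 0 ∧ pl x y 1 2 = 0 := by
  unfold pl
  simp

theorem st_DT3 : ST_DT3 := by
  intro x y
  refine ⟨?_, ?_, ?_, ?_⟩
  · intro r hr
    obtain ⟨a1, a2, a3⟩ := pl_zero (x := x) (y := y)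
    obtain ⟨b1, b2, b3⟩ := pl_one (x := x) (y := y)
    obtain ⟨c1, c2, c3⟩ := pl_big (x := x) (y := y) hr
    rw [dt3_eq, a1, a2, a3, b1, b2, b3, c1, c2, c3]
    ring
  · intro q r hq hr
    obtain ⟨a1, a2, a3⟩ := pl_zero (x := x) (y := y)
    obtain ⟨b1, b2, b3⟩ := pl_big (x := x) (y := y) hq
    obtain ⟨c1, c2, c3⟩ := pl_big (x := x) (y := y) hr
    rw [dt3_eq, a1, a2, a3, b1, b2, b3, c1, c2, c3]
    ring
  · intro q r hq hr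
    obtain ⟨a1, a2, a3⟩ := pl_one (x := x) (y := y)
    obtain ⟨b1, b2, b3⟩ := pl_big (x := x) (y := y) hq
    obtain ⟨c1, c2, c3⟩ := pl_big (x := x) (y := y) hr
    rw [dt3_eq, a1, a2, a3, b1, b2, b3, c1, c2, c3]
    ring
  · intro p q r hp hq hr
    obtain ⟨a1, a2, a3⟩ := pl_big (x := x) (y := y) hp
    obtain ⟨b1, b2, b3⟩ := pl_big (x := x) (y := y) hq
    obtain ⟨c1, c2, c3⟩ := pl_big (x := x) (y := y) hr
    rw [dt3_eq, a1, a2, a3, b1, b2, b3, c1, c2, c3]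
    ring

end Pool.Agent.Helper92.SPR
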