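import Pool.Agent.Helper54.SP.Stmts

namespace Pool.Agent.Helper92.SPR

open Pool.Agent.Helper54.SP

theorem st_FH (hK : ST_KINJ) : ST_FH := by
  intro Γ nw hW
  obtain ⟨k1, k2, k3, k4, k5⟩ := hK Γ nw hW
  have hNN : 4 ≤ NN Γ := by
    unfold NN
    omega
  have x2 : xk 2 = 0 := by
    unfold xk
    simp
  have y2 : yk Γ 2 = 0 := by
    unfold yk
    simp
  have xpos : ∀ x, 3 ≤ x → x < NN Γ → 0 < xk x := by
    intro x hx hxN
    rcases Nat.eq_zero_or_pos (xk x) with h | h
    · have := k1 2 x le_rfl (by omega) (by omega) hxN (by rw [x2, h])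
      omega
    · exact h
  have ypos : ∀ x, 3 ≤ x → x < NN Γ → 0 < yk Γ x := by
    intro x hx hxN
    rcases Nat.eq_zero_or_pos (yk Γ x) with h | h
    · have := k2 2 x le_rfl (by omega) (by omega) hxN (by rw [y2, h])
      omega
    · exact h
  refine ⟨?_, ?_, ?_⟩
  · intro x hx hxN
    have h1 : (0 : ℕ) < 1 := by omega
    have h2 : 1 < x := by omega
    unfold sg3
    rw [if_pos h1, if_pos h2]
    unfold sg0
    simp
  · intro x hx0 hx2 hxN
    have h1 : (0 : ℕ) < 2 := by omega
    unfold sg3
    rw [if_pos h1]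
    by_cases hx : 2 < x
    · rw [if_pos hx]
      unfold sg0
      have hlt : xk 2 < xk x := by
        rw [x2]
        exact xpos x (by omega) hxN
      simp [hlt]
    · have hx1 : x = 1 := by omega
      subst hx1
      unfold sg0
      simp
  · intro x hx1 hx2 hxN
    have h1 : (1 : ℕ) < 2 := by omega
    unfold sg3
    rw [if_pos h1]
    by_cases hx : 2 < x
    · rw [if_pos hx]
      unfold sg0
      have hlt : ¬ yk Γ x < yk Γ 2 := by
        rw [y2]
        omega
      simp [hlt]
    · have hx0 : x = 0 := by omega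
      subst hx0
      unfold sg0
      simp

end Pool.Agent.Helper92.SPR
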