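import Pool.Agent.Helper54.SP.Stmts

namespace Pool.Agent.Helper92.SPR

open Pool.Agent.Helper54.SP

theorem st_GIN : ST_GIN := by
  intro xa ya xb yb xc yc xd yd u u' a hxa hxb hxc hxd hya hu' ha h1 h2 h3 h4 h5 h6 h7
  have hyc : 0 < yc := lt_trans ha h3
  have hyb : 0 < yb := lt_trans hu' h2
  have hyd : 0 < yd := by
    have : 0 < yd * xc := lt_trans (mul_pos hyc hxd) h7
    exact pos_of_mul_pos_left this hxc.le
  have e1 : a * u' < yc * yb := mul_lt_mul'' h3 h2 ha.le hu'.le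
  have e2 : yc * (yb * xa) < yc * (ya * xb) := mul_lt_mul_of_pos_left h6 hyc
  have e3 : (yc * ya) * xb < (yc * ya) * xd := mul_lt_mul_of_pos_left h5 (mul_pos hyc hya)
  have e4 : ya * (yc * xd) < ya * (yd * xc) := mul_lt_mul_of_pos_left h7 hya
  have e5 : (ya * yd) * xc < (ya * yd) * xa := mul_lt_mul_of_pos_left h4 (mul_pos hya hyd)
  have e6 : (yc * yb) * xa < (yd * ya) * xa := by nlinarith
  have e7 : yc * yb < yd * ya := lt_of_mul_lt_mul_right e6 hxa.le
  have e8 : yd * ya < yd * u := mul_lt_mul_of_pos_left h1 hyd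
  linarith

theorem st_GIN' : ST_GIN' := by
  intro xa ya xb yb xc yc xd yd u u' a hxa hxb hxc hxd hyb hyc hu hyd h1 h2 h3 h4 h5 h6 h7
  have hya : 0 < ya := lt_trans hu h1
  have e1 : yc * yb < a * u' := mul_lt_mul'' h3 h2 hyc.le hyb.le
  have e2 : yd * (ya * xb) < yd * (yb * xa) := mul_lt_mul_of_pos_left h6 hyd
  have e3 : (yd * yb) * xa < (yd * yb) * xc := mul_lt_mul_of_pos_left h4 (mul_pos hyd hyb)
  have e4 : yb * (yd * xc) < yb * (yc * xd) := mul_lt_mul_of_pos_left h7 hyb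
  have e5 : (yb * yc) * xd < (yb * yc) * xb := mul_lt_mul_of_pos_left h5 (mul_pos hyb hyc)
  have e6 : (yd * ya) * xb < (yc * yb) * xb := by nlinarith
  have e7 : yd * ya < yc * yb := lt_of_mul_lt_mul_right e6 hxb.le
  have e8 : yd * u < yd * ya := mul_lt_mul_of_pos_left h1 hyd
  linarith

end Pool.Agent.Helper92.SPR
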