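import Pool.Agent.Helper54.SP.StmtsW

namespace Pool.Agent.Helper92.SPR

open Pool.Agent.Helper54.SP

theorem st_WP : ST_WP := by
  intro a₀ a₁ a₂ a₃ a₄ s₀ s₁ s₂ t₃ t₄ h0 h0' h1 h1' h2 h2' h3 h4 g0 g1 g2 k3 k4 l3 l4 hlt
  have p0 : 0 < 1 - a₀ := by linarith
  have p1 : 0 < 1 - a₁ := by linarith
  have p2 : 0 < 1 - a₂ := by linarith
  have q0 : 1 ≤ s₀ * (1 - a₀) := by
    rw [div_le_iff₀ p0] at g0
    exact g0
  have q1 : 1 ≤ s₁ * (1 - a₁) := by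
    rw [div_le_iff₀ p1] at g1
    exact g1
  have q2 : 1 ≤ s₂ * (1 - a₂) := by
    rw [div_le_iff₀ p2] at g2
    exact g2
  have m1 : 1 ≤ (s₀ * (1 - a₀)) * (s₁ * (1 - a₁)) := one_le_mul_of_one_le_of_one_le q0 q1
  have m2 : 1 ≤ (s₀ * (1 - a₀)) * (s₁ * (1 - a₁)) * (s₂ * (1 - a₂)) :=
    one_le_mul_of_one_le_of_one_le m1 q2
  have m3 : (s₀ * s₁ * s₂) * ((1 - a₀) * (1 - a₁) * (1 - a₂)) <
      (t₃ * t₄) * ((1 - a₀) * (1 - a₁) * (1 - a₂)) :=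
    mul_lt_mul_of_pos_right hlt (mul_pos (mul_pos p0 p1) p2)
  have m4 : 1 < (t₃ * t₄) * ((1 - a₀) * (1 - a₁) * (1 - a₂)) := by
    refine lt_of_le_of_lt m2 (lt_of_eq_of_lt ?_ m3)
    ring
  have r3 : t₃ ≤ Real.exp a₃ := l3.trans (by linarith [Real.add_one_le_exp a₃])
  have r4 : t₄ ≤ Real.exp a₄ := l4.trans (by linarith [Real.add_one_le_exp a₄])
  have r0 : 1 - a₀ ≤ Real.exp (-a₀) := by linarith [Real.add_one_le_exp (-a₀)]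
  have r1 : 1 - a₁ ≤ Real.exp (-a₁) := by linarith [Real.add_one_le_exp (-a₁)]
  have r2 : 1 - a₂ ≤ Real.exp (-a₂) := by linarith [Real.add_one_le_exp (-a₂)]
  have u1 : t₃ * t₄ ≤ Real.exp a₃ * Real.exp a₄ :=
    mul_le_mul r3 r4 k4.le (Real.exp_pos _).le
  have u2 : (1 - a₀) * (1 - a₁) ≤ Real.exp (-a₀) * Real.exp (-a₁) :=
    mul_le_mul r0 r1 p1.le (Real.exp_pos _).le
  have u3 : (1 - a₀) * (1 - a₁) * (1 - a₂) ≤ Real.exp (-a₀) * Real.exp (-a₁) * Real.exp (-a₂) :=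
    mul_le_mul u2 r2 p2.le (by positivity)
  have u4 : (t₃ * t₄) * ((1 - a₀) * (1 - a₁) * (1 - a₂)) ≤
      (Real.exp a₃ * Real.exp a₄) * (Real.exp (-a₀) * Real.exp (-a₁) * Real.exp (-a₂)) :=
    mul_le_mul u1 u3 (by positivity) (by positivity)
  have u5 : (Real.exp a₃ * Real.exp a₄) * (Real.exp (-a₀) * Real.exp (-a₁) * Real.exp (-a₂)) =
      Real.exp (a₃ + a₄ - a₀ - a₁ - a₂) := by
    rw [← Real.exp_add, ← Real.exp_add, ← Real.exp_add, ← Real.exp_add]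
    ring_nf
  have u6 : 1 < Real.exp (a₃ + a₄ - a₀ - a₁ - a₂) := by
    rw [← u5]
    exact lt_of_lt_of_le m4 u4
  have u7 : 0 < a₃ + a₄ - a₀ - a₁ - a₂ := by
    rw [Real.one_lt_exp_iff] at u6
    exact u6
  linarith

end Pool.Agent.Helper92.SPR
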