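import Pool.Agent.Helper54.SP.StmtsW

namespace Pool.Agent.Helper92.SPR

open Pool.Agent.Helper54.SP

theorem st_WT : ST_WT := by
  intro β β' ω ω' ω'' b w c d hβ hb hc hββ hωω hbw hcd e1 e2 e3 e4
  have hb1 : (0 : ℝ) < b - 1 := by linarith
  have hβ1 : (0 : ℝ) < β - 1 := by linarith
  have hd : 0 < d := by linarith
  have hω1 : 0 < ω - 1 := by
    have h : 0 < (ω - 1) * (b - 1) := by
      rw [e1]
      exact mul_pos hβ1 (by linarith)
    exact pos_of_mul_pos_left h hb1.le
  have hω : 0 < ω := by linarith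
  obtain ⟨n, hn⟩ : ∃ n, n = (w - 1) / (b - 1) - 1 := ⟨_, rfl⟩
  obtain ⟨m, hm⟩ : ∃ m, m = d / c - 1 := ⟨_, rfl⟩
  have hw : w - 1 = (1 + n) * (b - 1) := by
    rw [hn]
    field_simp
    ring
  have hdm : d = (1 + m) * c := by
    rw [hm]
    field_simp
    ring
  have k1 : ω - 1 = (β - 1) * (1 + n) := by
    have : (ω - 1) * (b - 1) = ((β - 1) * (1 + n)) * (b - 1) := by
      rw [e1, hw]
      ring
    exact mul_right_cancel₀ hb1.ne' this
  have k2 : β' = β * (1 + m) := by
    have : β' * c = (β * (1 + m)) * c := by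
      rw [e2, hdm]
      ring
    exact mul_right_cancel₀ hc.ne' this
  have k3 : ω' = ω * (1 + m) := by
    have : ω' * c = (ω * (1 + m)) * c := by
      rw [e3, hdm]
      ring
    exact mul_right_cancel₀ hc.ne' this
  have k4 : ω'' - 1 = (1 + n) * (β' - 1) := by
    have : (ω'' - 1) * (β - 1) = ((1 + n) * (β' - 1)) * (β - 1) := by
      rw [e4, k1]
      ring
    exact mul_right_cancel₀ hβ1.ne' this
  have k5 : ω'' - ω' = m * n := by
    have h1 : ω'' = 1 + (1 + n) * (β * (1 + m) - 1) := by
      rw [← k2]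
      linarith
    have h2 : ω = 1 + (β - 1) * (1 + n) := by linarith
    rw [k3, h1, h2]
    ring
  have hm1 : 0 < 1 + m := by
    have : 0 < (1 + m) * c := by
      rw [← hdm]
      exact hd
    exact pos_of_mul_pos_left this hc.le
  constructor
  · rw [k5, ← hn, ← hm]
  · rw [← hn]
    have hω' : 0 < ω' := by
      rw [k3]
      exact mul_pos hω hm1
    have h3 : 1 - c / d = m / (1 + m) := by
      rw [hdm]
      field_simp
      ring
    have h4 : ω'' = ω' + m * n := by linarith
    rw [h3, h4, k3]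
    field_simp

end Pool.Agent.Helper92.SPR
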