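import Pool.Agent.Helper54.SP.StmtsP

namespace Pool.Agent.Helper92.SPR

open Pool.Agent.Helper54.SP

theorem st_GT (h1 : ST_GT1) (h2 : ST_GT2) : ST_GT := by
  intro k U U' A A' e b hG hb p q r hpq hqr hr
  by_cases h : p / 2 = q / 2 ∨ q / 2 = r / 2
  · exact h2 k U U' A A' e b hG hb p q r hpq hqr hr h
  · rw [not_or] at h
    exact h1 k U U' A A' e b hG hb p q r hpq hqr hr h.1 h.2

end Pool.Agent.Helper92.SPR
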